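import Pool.Agent.Helper70.GB.Types

/-!
# Module A13 (M10): uniform equidistribution of Jordan sets (Weyl)
-/

open Set MeasureTheory Filter Topology

namespace GB

namespace Weyl

abbrev C1 := AddCircle (1 : ℝ)

lemma integral_fourier (n : ℤ) : ∫ y : C1, fourier n y = if n = 0 then 1 else 0 := by
  have h := congrFun (fourierCoeff_fourier (T := (1 : ℝ)) n) 0
  unfold fourierCoeff at h
  simp only [neg_zero, fourier_zero, one_smul] at h
  rw [AddCircle.integral_haarAddCircle] at h
  simp only [inv_one, one_smul] at h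
  rw [h]
  by_cases hn : n = 0
  · subst hn; simp
  · rw [Pi.single_eq_of_ne (Ne.symm hn), if_neg hn]

/-- uniform averages along the rotation -/
def W (α : C1) (f : C(C1, ℂ)) : Prop :=
  ∀ ε : ℝ, 0 < ε → ∃ N₀ : ℕ, ∀ N : ℕ, N₀ ≤ N → ∀ x : C1,
    ‖∑ l ∈ Finset.range N, f (x + l • α) - N * ∫ y, f y‖ ≤ ε * N

lemma int_cont (f : C(C1, ℂ)) : Integrable (fun y => f y) (volume : Measure C1) :=
  f.continuous.integrable_of_hasCompactSupport (HasCompactSupport.of_compactSpace _)

lemma W_add {α : C1} {f g : C(C1, ℂ)} (hf : W α f) (hg : W α g) : W α (f + g) := by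
  intro ε hε
  obtain ⟨N1, h1⟩ := hf (ε / 2) (by positivity)
  obtain ⟨N2, h2⟩ := hg (ε / 2) (by positivity)
  refine ⟨max N1 N2, fun N hN x => ?_⟩
  have e1 := h1 N (le_trans (le_max_left _ _) hN) x
  have e2 := h2 N (le_trans (le_max_right _ _) hN) x
  have hi : ∫ y, (f + g) y = (∫ y, f y) + ∫ y, g y := by
    simp only [ContinuousMap.add_apply]
    exact integral_add (int_cont f) (int_cont g)
  rw [hi]
  simp only [ContinuousMap.add_apply, Finset.sum_add_distrib]
  have : ∑ l ∈ Finset.range N, f (x + l • α) + ∑ l ∈ Finset.range N, g (x + l • α) -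
      N * ((∫ y, f y) + ∫ y, g y) = (∑ l ∈ Finset.range N, f (x + l • α) - N * ∫ y, f y) +
      (∑ l ∈ Finset.range N, g (x + l • α) - N * ∫ y, g y) := by ring
  rw [this]
  refine (norm_add_le _ _).trans ?_
  linarith

lemma W_smul {α : C1} {f : C(C1, ℂ)} (c : ℂ) (hf : W α f) : W α (c • f) := by
  intro ε hε
  obtain ⟨N1, h1⟩ := hf (ε / (‖c‖ + 1)) (by positivity)
  refine ⟨N1, fun N hN x => ?_⟩
  have e1 := h1 N hN x
  have hi : ∫ y, (c • f) y = c * ∫ y, f y := by
    simp only [ContinuousMap.smul_apply, smul_eq_mul]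
    exact integral_const_mul _ _
  rw [hi]
  simp only [ContinuousMap.smul_apply, smul_eq_mul]
  rw [← Finset.mul_sum]
  have : c * ∑ l ∈ Finset.range N, f (x + l • α) - N * (c * ∫ y, f y) =
      c * (∑ l ∈ Finset.range N, f (x + l • α) - N * ∫ y, f y) := by ring
  rw [this, norm_mul]
  have h2 : ‖c‖ * (ε / (‖c‖ + 1) * N) ≤ ε * N := by
    have h3 : ‖c‖ * (ε / (‖c‖ + 1)) ≤ ε := by
      rw [mul_div_assoc', div_le_iff₀ (by positivity)]
      nlinarith [norm_nonneg c]
    have : (0 : ℝ) ≤ N := by positivity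
    nlinarith
  exact (mul_le_mul_of_nonneg_left e1 (norm_nonneg c)).trans h2

lemma W_zero {α : C1} : W α 0 := by
  intro ε hε
  refine ⟨0, fun N _ x => ?_⟩
  simp
  positivity

lemma W_fourier {a : ℝ} (ha : Irrational a) (n : ℤ) : W (a : C1) (fourier n) := by
  intro ε hε
  rw [integral_fourier]
  by_cases hn : n = 0
  · subst hn
    refine ⟨0, fun N _ x => ?_⟩
    simp
    positivity
  · set r : ℂ := fourier n (a : C1) with hr
    have hr1 : r ≠ 1 := by
      intro h
      rw [hr, fourier_apply] at h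
      have h2 : AddCircle.toCircle (n • (a : C1)) = AddCircle.toCircle (0 : C1) := by
        rw [AddCircle.toCircle_zero]
        exact Circle.ext (by rw [Circle.coe_one]; exact h)
      have h3 := AddCircle.injective_toCircle one_ne_zero h2
      rw [← AddCircle.coe_zsmul, AddCircle.coe_eq_zero_iff] at h3
      obtain ⟨m, hm⟩ := h3
      simp only [zsmul_eq_mul, mul_one] at hm
      have h4 := (ha.intCast_mul hn)
      exact h4 ⟨m, by rw [← hm]; push_cast; rfl⟩
    have hpos : 0 < ‖r - 1‖ := norm_pos_iff.2 (sub_ne_zero.2 hr1)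
    have hrn : ‖r‖ = 1 := by
      rw [hr, fourier_apply]
      exact Circle.norm_coe _
    obtain ⟨N₀, hN₀⟩ := exists_nat_ge (2 / ‖r - 1‖ / ε)
    refine ⟨N₀, fun N hN x => ?_⟩
    rw [if_neg hn, mul_zero, sub_zero]
    have h1 : ∀ l : ℕ, (fourier n (x + l • (a : C1)) : ℂ) = fourier n x * r ^ l := by
      intro l
      rw [hr]
      simp only [fourier_apply]
      rw [smul_add, AddCircle.toCircle_add, smul_comm, AddCircle.toCircle_nsmul]
      push_cast
      rfl
    rw [Finset.sum_congr rfl fun l _ => h1 l, ← Finset.mul_sum, geom_sum_eq hr1, norm_mul,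
      norm_div]
    have h2 : ‖(fourier n x : ℂ)‖ = 1 := by
      rw [fourier_apply]
      exact Circle.norm_coe _
    rw [h2, one_mul]
    have h3 : ‖r ^ N - 1‖ ≤ 2 := by
      refine (norm_sub_le _ _).trans ?_
      rw [norm_pow, hrn, one_pow, norm_one]
      norm_num
    calc ‖r ^ N - 1‖ / ‖r - 1‖ ≤ 2 / ‖r - 1‖ := by gcongr
      _ ≤ ε * N := by
        rw [div_le_iff₀ hε] at hN₀
        have : (N₀ : ℝ) ≤ N := by exact_mod_cast hN
        nlinarith

lemma W_all {a : ℝ} (ha : Irrational a) (f : C(C1, ℂ)) : W (a : C1) f := by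
  let S : Submodule ℂ C(C1, ℂ) :=
    { carrier := {f | W (a : C1) f}
      add_mem' := fun hf hg => W_add hf hg
      zero_mem' := W_zero
      smul_mem' := fun c _ hf => W_smul c hf }
  have hS : Submodule.span ℂ (range (@fourier (1 : ℝ))) ≤ S := by
    rw [Submodule.span_le]
    rintro _ ⟨n, rfl⟩
    exact W_fourier ha n
  have hcl : f ∈ closure ((Submodule.span ℂ (range (@fourier (1 : ℝ))) : Submodule ℂ C(C1, ℂ)) :
      Set C(C1, ℂ)) := by
    have : f ∈ (Submodule.span ℂ (range (@fourier (1 : ℝ)))).topologicalClosure := by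
      rw [span_fourier_closure_eq_top]
      trivial
    exact this
  intro ε hε
  obtain ⟨g, hg, hfg⟩ := Metric.mem_closure_iff.1 hcl (ε / 3) (by positivity)
  obtain ⟨N₀, hN₀⟩ := hS hg (ε / 3) (by positivity)
  refine ⟨N₀, fun N hN x => ?_⟩
  have e1 := hN₀ N hN x
  have hp : ∀ y, ‖f y - g y‖ ≤ ε / 3 := fun y => by
    have h1 := ContinuousMap.dist_apply_le_dist (f := f) (g := g) y
    rw [dist_eq_norm] at h1
    linarith
  have hfi := int_cont f
  have hgi := int_cont g
  have e2 : ‖∑ l ∈ Finset.range N, (f (x + l • (a : C1)) - g (x + l • (a : C1)))‖ ≤ N * (ε / 3) := by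
    refine (norm_sum_le _ _).trans ?_
    refine (Finset.sum_le_card_nsmul _ _ (ε / 3) fun l _ => hp _).trans ?_
    rw [Finset.card_range, nsmul_eq_mul]
  have e3 : ‖∫ y, (f y - g y)‖ ≤ ε / 3 := by
    have := norm_integral_le_of_norm_le_const (μ := (volume : Measure C1)) (f := fun y => f y - g y)
      (Eventually.of_forall hp)
    have hv : (volume : Measure C1).real univ = 1 := by
      rw [Measure.real, AddCircle.measure_univ]
      simp
    rwa [hv, mul_one] at this
  rw [integral_sub hfi hgi] at e3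
  rw [Finset.sum_sub_distrib] at e2
  have : ∑ l ∈ Finset.range N, f (x + l • (a : C1)) - N * ∫ y, f y =
      (∑ l ∈ Finset.range N, g (x + l • (a : C1)) - N * ∫ y, g y) +
      (∑ l ∈ Finset.range N, f (x + l • (a : C1)) - ∑ l ∈ Finset.range N, g (x + l • (a : C1))) -
      N * ((∫ y, f y) - ∫ y, g y) := by ring
  rw [this]
  refine (norm_sub_le _ _).trans ((add_le_add (norm_add_le _ _) le_rfl).trans ?_)
  rw [norm_mul, Complex.norm_natCast]
  have : (N : ℝ) * ‖(∫ y, f y) - ∫ y, g y‖ ≤ N * (ε / 3) := by gcongr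
  linarith


lemma upper_closed {a : ℝ} (ha : Irrational a) (K : Set C1) (hK : IsClosed K) (ε : ℝ) (hε : 0 < ε) :
    ∃ N₀ : ℕ, ∀ N : ℕ, N₀ ≤ N → ∀ x : C1,
      ∑ l ∈ Finset.range N, K.indicator (fun _ => (1 : ℝ)) (x + l • (a : C1)) ≤
        ((volume K).toReal + ε) * N := by
  obtain ⟨U, hUK, hU, hvU⟩ := K.exists_isOpen_le_add volume
    (ε := ENNReal.ofReal (ε / 2)) (by simpa using hε)
  obtain ⟨g, hg0, hg1, hg⟩ := exists_continuous_zero_one_of_isClosed hU.isClosed_compl hK
    (disjoint_compl_left_iff_subset.2 hUK)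
  let gc : C(C1, ℂ) := ⟨fun y => (g y : ℂ), Complex.continuous_ofReal.comp g.continuous⟩
  obtain ⟨N₀, hN₀⟩ := W_all ha gc (ε / 2) (by positivity)
  refine ⟨N₀, fun N hN x => ?_⟩
  have h1 := hN₀ N hN x
  have h2 : ∑ l ∈ Finset.range N, gc (x + l • (a : C1)) - N * ∫ y, gc y =
      ((∑ l ∈ Finset.range N, g (x + l • (a : C1)) - N * ∫ y, g y : ℝ) : ℂ) := by
    have : ∫ y, gc y = ((∫ y, g y : ℝ) : ℂ) := integral_ofReal
    rw [this]
    push_cast
    rfl
  rw [h2, Complex.norm_real, Real.norm_eq_abs, abs_le] at h1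
  have hfin : (volume : Measure C1) univ = 1 := by
    rw [AddCircle.measure_univ]; simp
  have hKfin : volume K ≠ ⊤ := ((measure_mono (subset_univ K)).trans_lt (by rw [hfin]; simp)).ne
  have hUfin : volume U ≠ ⊤ := ((measure_mono (subset_univ U)).trans_lt (by rw [hfin]; simp)).ne
  have h3 : ∫ y, g y ≤ (volume K).toReal + ε / 2 := by
    have hgi : Integrable (fun y => g y) (volume : Measure C1) :=
      g.continuous.integrable_of_hasCompactSupport (HasCompactSupport.of_compactSpace _)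
    have h4 : ∫ y, g y ≤ ∫ y, U.indicator (fun _ => (1 : ℝ)) y := by
      refine integral_mono hgi ?_ fun y => ?_
      · exact (integrable_indicator_iff hU.measurableSet).2
          (integrableOn_const (hs := hUfin) (by simp))
      · by_cases hy : y ∈ U
        · rw [Set.indicator_of_mem hy]
          exact (hg y).2
        · rw [Set.indicator_of_notMem hy]
          exact (hg0 hy).le
    rw [integral_indicator hU.measurableSet, setIntegral_const, smul_eq_mul, mul_one] at h4
    refine h4.trans ?_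
    have h5 : (volume U).toReal ≤ (volume K + ENNReal.ofReal (ε / 2)).toReal :=
      ENNReal.toReal_mono (by simp [hKfin]) hvU
    rw [ENNReal.toReal_add hKfin (by simp), ENNReal.toReal_ofReal (by positivity)] at h5
    exact h5
  have h6 : ∑ l ∈ Finset.range N, K.indicator (fun _ => (1 : ℝ)) (x + l • (a : C1)) ≤
      ∑ l ∈ Finset.range N, g (x + l • (a : C1)) := by
    refine Finset.sum_le_sum fun l _ => ?_
    by_cases hy : x + l • (a : C1) ∈ K
    · rw [Set.indicator_of_mem hy]
      exact (hg1 hy).ge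
    · rw [Set.indicator_of_notMem hy]
      exact (hg _).1
  have hN0 : (0 : ℝ) ≤ N := by positivity
  nlinarith [h1.2]

lemma two_sided {a : ℝ} (ha : Irrational a) (B : Set C1) (hB : volume (frontier B) = 0)
    (ε : ℝ) (hε : 0 < ε) :
    ∃ N₀ : ℕ, ∀ N : ℕ, N₀ ≤ N → ∀ x : C1,
      |∑ l ∈ Finset.range N, B.indicator (fun _ => (1 : ℝ)) (x + l • (a : C1)) -
        N * (volume B).toReal| ≤ ε * N := by
  obtain ⟨N1, h1⟩ := upper_closed ha (closure B) isClosed_closure ε hε
  obtain ⟨N2, h2⟩ := upper_closed ha (interior B)ᶜ isOpen_interior.isClosed_compl ε hε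
  have hfin : (volume : Measure C1) univ = 1 := by
    rw [AddCircle.measure_univ]; simp
  have : IsProbabilityMeasure (volume : Measure C1) := ⟨hfin⟩
  refine ⟨max N1 N2, fun N hN x => ?_⟩
  have e1 := h1 N (le_trans (le_max_left _ _) hN) x
  have e2 := h2 N (le_trans (le_max_right _ _) hN) x
  rw [measure_closure_of_null_frontier hB] at e1
  have hc : (volume (interior B)ᶜ).toReal = 1 - (volume B).toReal := by
    rw [prob_compl_eq_one_sub₀ isOpen_interior.measurableSet.nullMeasurableSet,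
      measure_interior_of_null_frontier hB, ENNReal.toReal_sub_of_le, ENNReal.toReal_one]
    · rw [← hfin]
      exact measure_mono (subset_univ _)
    · simp
  rw [hc] at e2
  have f1 : ∑ l ∈ Finset.range N, B.indicator (fun _ => (1 : ℝ)) (x + l • (a : C1)) ≤
      ∑ l ∈ Finset.range N, (closure B).indicator (fun _ => (1 : ℝ)) (x + l • (a : C1)) :=
    Finset.sum_le_sum fun l _ => Set.indicator_le_indicator_of_subset subset_closure
      (fun _ => zero_le_one) _
  have f2 : (N : ℝ) - ∑ l ∈ Finset.range N, B.indicator (fun _ => (1 : ℝ)) (x + l • (a : C1)) ≤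
      ∑ l ∈ Finset.range N, ((interior B)ᶜ).indicator (fun _ => (1 : ℝ)) (x + l • (a : C1)) := by
    have : (N : ℝ) = ∑ l ∈ Finset.range N, (1 : ℝ) := by simp
    rw [this, ← Finset.sum_sub_distrib]
    refine Finset.sum_le_sum fun l _ => ?_
    by_cases hy : x + l • (a : C1) ∈ B
    · rw [Set.indicator_of_mem hy, sub_self]
      exact Set.indicator_nonneg (fun _ _ => zero_le_one) _
    · have hy' : x + l • (a : C1) ∈ (interior B)ᶜ := fun h => hy (interior_subset h)
      rw [Set.indicator_of_notMem hy, Set.indicator_of_mem hy']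
      simp
  rw [abs_le]
  constructor
  · nlinarith
  · nlinarith

lemma per_int {G : Set ℝ} (hG : Per G) (x : ℝ) (n : ℤ) : x + n ∈ G ↔ x ∈ G := by
  have hnat : ∀ (m : ℕ) (y : ℝ), y + m ∈ G ↔ y ∈ G := by
    intro m
    induction m with
    | zero => intro y; simp
    | succ m ih =>
      intro y
      have : y + ((m + 1 : ℕ) : ℝ) = (y + m) + 1 := by push_cast; ring
      rw [this, hG, ih]
  rcases Int.eq_nat_or_neg n with ⟨m, rfl | rfl⟩
  · exact_mod_cast hnat m x
  · have := hnat m (x + ((-(m : ℤ) : ℤ) : ℝ))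
    rw [← this]
    push_cast
    ring_nf

lemma mem_image_iff {G : Set ℝ} (hG : Per G) (x : ℝ) :
    (x : C1) ∈ ((↑) : ℝ → C1) '' G ↔ x ∈ G := by
  constructor
  · rintro ⟨y, hy, hxy⟩
    have h1 : ((x - y : ℝ) : C1) = 0 := by
      rw [AddCircle.coe_sub, hxy, sub_self]
    rw [AddCircle.coe_eq_zero_iff] at h1
    obtain ⟨n, hn⟩ := h1
    have : x = y + n := by
      simp only [zsmul_eq_mul, mul_one] at hn
      linarith
    rw [this, per_int hG]
    exact hy
  · intro h
    exact ⟨x, h, rfl⟩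

lemma preimage_image {G : Set ℝ} (hG : Per G) :
    ((↑) : ℝ → C1) ⁻¹' (((↑) : ℝ → C1) '' G) = G := by
  ext x
  exact mem_image_iff hG x

/-- two-sided averages for periodic Jordan sets -/
lemma per_two (α : ℝ) (hα : Irrational α) (G : Set ℝ) (hG : Per G)
    (hfr : volume (frontier G) = 0) (ε : ℝ) (hε : 0 < ε) :
    ∃ N₀ : ℕ, ∀ N : ℕ, N₀ ≤ N → ∀ x : ℝ,
      |∑ l ∈ Finset.range N, G.indicator (fun _ => (1 : ℝ)) (x + l * α) -
        N * (volume (G ∩ Ioc 0 1)).toReal| ≤ ε * N := by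
  set B : Set C1 := ((↑) : ℝ → C1) '' G with hB
  have hmp := AddCircle.measurePreserving_mk (1 : ℝ) 0
  have hfrB : volume (frontier B) = 0 := by
    rw [← hmp.measure_preimage isClosed_frontier.measurableSet.nullMeasurableSet,
      QuotientAddGroup.isOpenMap_coe.preimage_frontier_eq_frontier_preimage
        (AddCircle.continuous_mk' 1), preimage_image hG]
    exact le_antisymm ((Measure.restrict_apply_le _ _).trans hfr.le) bot_le
  have hvB : volume B = volume (G ∩ Ioc 0 1) := by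
    rw [← hmp.measure_preimage (nullMeasurableSet_of_null_frontier hfrB), preimage_image hG,
      Measure.restrict_apply₀', zero_add]
    exact measurableSet_Ioc.nullMeasurableSet
  obtain ⟨N₀, hN₀⟩ := two_sided hα B hfrB ε hε
  refine ⟨N₀, fun N hN x => ?_⟩
  have := hN₀ N hN (x : C1)
  rw [hvB] at this
  have h2 : ∀ l : ℕ, B.indicator (fun _ => (1 : ℝ)) ((x : C1) + l • (α : C1)) =
      G.indicator (fun _ => (1 : ℝ)) (x + l * α) := by
    intro l
    have e : (x : C1) + l • (α : C1) = ((x + l * α : ℝ) : C1) := by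
      rw [AddCircle.coe_add, ← AddCircle.coe_nsmul, nsmul_eq_mul]
    rw [e]
    by_cases h : x + l * α ∈ G
    · rw [Set.indicator_of_mem h, Set.indicator_of_mem ((mem_image_iff hG _).2 h)]
    · rw [Set.indicator_of_notMem h, Set.indicator_of_notMem (fun h' => h ((mem_image_iff hG _).1 h'))]
  rwa [Finset.sum_congr rfl fun l _ => h2 l] at this

end Weyl

open Weyl in
theorem per_avg (α : ℝ) (hα : Irrational α) (G : Set ℝ) (hG : Per G)
    (hfr : volume (frontier G) = 0) (ε : ℝ) (hε : 0 < ε) :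
    ∃ N₀ : ℕ, ∀ N : ℕ, N₀ ≤ N → ∀ x : ℝ,
      (∑ l ∈ Finset.range N, G.indicator (fun _ => (1 : ℝ)) (x + l * α)) ≤
        ((volume (G ∩ Icc 0 1)).toReal + ε) * N := by
  obtain ⟨N₀, hN₀⟩ := per_two α hα G hG hfr ε hε
  refine ⟨N₀, fun N hN x => ?_⟩
  have h1 := (abs_le.1 (hN₀ N hN x)).2
  have h2 : (volume (G ∩ Ioc 0 1)).toReal ≤ (volume (G ∩ Icc 0 1)).toReal := by
    refine ENNReal.toReal_mono ?_ (measure_mono (inter_subset_inter_right _ Ioc_subset_Icc_self))
    exact ((measure_mono inter_subset_right).trans_lt (by simp)).ne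
  have hN0 : (0 : ℝ) ≤ N := by positivity
  nlinarith

namespace Weyl

/-- the part of `A` in `[k, k+1)`, made periodic -/
def Gk (A : Set ℝ) (k : ℤ) : Set ℝ := {x | Int.fract x + k ∈ A}

lemma Gk_per (A : Set ℝ) (k : ℤ) : Per (Gk A k) := by
  intro x
  unfold Gk
  simp

lemma Gk_frontier (A : Set ℝ) (k : ℤ) (hfr : volume (frontier A) = 0) :
    volume (frontier (Gk A k)) = 0 := by
  have hsub : frontier (Gk A k) ⊆ (⋃ m : ℤ, {(m : ℝ)}) ∪
      ⋃ m : ℤ, (fun x : ℝ => x + ((k - m : ℤ) : ℝ)) ⁻¹' frontier A := by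
    intro x hx
    by_cases hfx : Int.fract x = 0
    · left
      rw [mem_iUnion]
      refine ⟨⌊x⌋, ?_⟩
      rw [mem_singleton_iff]
      have := Int.floor_add_fract x
      rw [hfx, add_zero] at this
      exact this.symm
    · right
      rw [mem_iUnion]
      refine ⟨⌊x⌋, ?_⟩
      rw [mem_preimage]
      have h0 : 0 < Int.fract x := lt_of_le_of_ne (Int.fract_nonneg x) (Ne.symm hfx)
      have hlt : (⌊x⌋ : ℝ) < x := by
        have := Int.self_sub_floor x
        linarith
      have hlt2 : x < ⌊x⌋ + 1 := Int.lt_floor_add_one x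
      -- near `x` the set is a translate
      have hloc : ∀ y ∈ Ioo (⌊x⌋ : ℝ) (⌊x⌋ + 1), (y ∈ Gk A k ↔ y + ((k - ⌊x⌋ : ℤ) : ℝ) ∈ A) := by
        intro y hy
        have hfl : ⌊y⌋ = ⌊x⌋ := Int.floor_eq_iff.2 ⟨hy.1.le, hy.2⟩
        unfold Gk
        rw [Set.mem_ofPred_eq, Int.fract, hfl]
        push_cast
        ring_nf
      have hcont : Continuous (fun y : ℝ => y + ((k - ⌊x⌋ : ℤ) : ℝ)) := by fun_prop
      have hopen : IsOpen (Ioo (⌊x⌋ : ℝ) (⌊x⌋ + 1)) := isOpen_Ioo
      have hev : ∀ᶠ y in 𝓝 x, (y ∈ Gk A k ↔ y + ((k - ⌊x⌋ : ℤ) : ℝ) ∈ A) := by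
        filter_upwards [hopen.mem_nhds ⟨hlt, hlt2⟩] with y hy
        exact hloc y hy
      have h3 : x ∈ frontier ((fun y : ℝ => y + ((k - ⌊x⌋ : ℤ) : ℝ)) ⁻¹' A) := by
        rw [frontier_eq_closure_inter_closure, mem_inter_iff, mem_closure_iff_frequently,
          mem_closure_iff_frequently] at hx ⊢
        exact ⟨hx.1.mp (hev.mono fun y hy h => hy.1 h),
          hx.2.mp (hev.mono fun y hy h h' => h (hy.2 h'))⟩
      exact hcont.frontier_preimage_subset A h3
  refine measure_mono_null hsub (measure_union_null ?_ ?_)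
  · exact (measure_iUnion_null fun m => Real.volume_singleton)
  · refine measure_iUnion_null fun m => ?_
    rw [measure_preimage_add_right]
    exact hfr

lemma Gk_volume (A : Set ℝ) (k : ℤ) :
    volume (Gk A k ∩ Ioc 0 1) = volume (A ∩ Ioo (k : ℝ) (k + 1)) := by
  have h1 : Gk A k ∩ Ioo 0 1 = (fun x : ℝ => x + k) ⁻¹' (A ∩ Ioo (k : ℝ) (k + 1)) := by
    ext x
    simp only [mem_inter_iff, mem_preimage, mem_Ioo, Gk, Set.mem_ofPred_eq]
    constructor
    · rintro ⟨h, h0, h1⟩
      rw [Int.fract_eq_self.2 ⟨h0.le, h1⟩] at h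
      exact ⟨h, by linarith, by linarith⟩
    · rintro ⟨h, h0, h1⟩
      have h0' : 0 < x := by linarith
      have h1' : x < 1 := by linarith
      rw [Int.fract_eq_self.2 ⟨h0'.le, h1'⟩]
      exact ⟨h, h0', h1'⟩
  have h2 : volume (Gk A k ∩ Ioc 0 1) = volume (Gk A k ∩ Ioo 0 1) := by
    refine le_antisymm ?_ (measure_mono (inter_subset_inter_right _ Ioo_subset_Ioc_self))
    have : Gk A k ∩ Ioc 0 1 ⊆ (Gk A k ∩ Ioo 0 1) ∪ {1} := by
      rintro x ⟨hx, h0, h1⟩
      rcases h1.lt_or_eq with h | h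
      · exact Or.inl ⟨hx, h0, h⟩
      · exact Or.inr h
    refine (measure_mono this).trans ((measure_union_le _ _).trans ?_)
    rw [Real.volume_singleton, add_zero]
  rw [h2, h1, measure_preimage_add_right]

lemma perCount_eq (A : Set ℝ) (R : ℕ) (hR : A ⊆ Ioo (-(R : ℝ)) R) (x : ℝ) :
    (perCount A x : ℝ) = ∑ k ∈ Finset.Ico (-(R : ℤ)) R, (Gk A k).indicator (fun _ => (1 : ℝ)) x := by
  classical
  have h1 : perCount A x = ((Finset.Ico (-(R : ℤ)) R).filter
      fun k : ℤ => Int.fract x + (k : ℝ) ∈ A).card := by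
    unfold perCount
    rw [← Set.ncard_coe_finset]
    refine Set.ncard_congr (fun u _ => ⌊x⌋ + u) ?_ ?_ ?_
    · intro u hu
      have hu' : x + (u : ℝ) ∈ A := hu
      have e : Int.fract x + ((⌊x⌋ + u : ℤ) : ℝ) = x + u := by
        have := Int.self_sub_floor x
        push_cast
        linarith
      have h2 := hR hu'
      have h3 := Int.fract_nonneg x
      have h4 := Int.fract_lt_one x
      rw [Finset.coe_filter, Set.mem_ofPred_eq, Finset.mem_Ico, e]
      refine ⟨⟨?_, ?_⟩, hu'⟩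
      · have : (-(R : ℝ)) < ((⌊x⌋ + u : ℤ) : ℝ) + 1 := by
          have := h2.1
          linarith
        have : (-(R : ℤ) : ℤ) < ⌊x⌋ + u + 1 := by exact_mod_cast this
        omega
      · have : ((⌊x⌋ + u : ℤ) : ℝ) < R := by
          have := h2.2
          linarith
        exact_mod_cast this
    · intro u v _ _ h
      simpa using h
    · intro k hk
      rw [Finset.coe_filter, Set.mem_ofPred_eq] at hk
      refine ⟨k - ⌊x⌋, ?_, by ring⟩
      show x + ((k - ⌊x⌋ : ℤ) : ℝ) ∈ A
      have e : x + ((k - ⌊x⌋ : ℤ) : ℝ) = Int.fract x + k := by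
        have := Int.self_sub_floor x
        push_cast
        linarith
      rw [e]
      exact hk.2
  rw [h1, Finset.card_filter]
  push_cast
  refine Finset.sum_congr rfl fun k _ => ?_
  by_cases h : Int.fract x + (k : ℝ) ∈ A
  · rw [if_pos h, Set.indicator_of_mem (show x ∈ Gk A k from h)]
  · rw [if_neg h, Set.indicator_of_notMem (show x ∉ Gk A k from h)]

lemma volume_sum (A : Set ℝ) (R : ℕ) (hR : A ⊆ Ioo (-(R : ℝ)) R) :
    volume A = ∑ k ∈ Finset.Ico (-(R : ℤ)) R, volume (A ∩ Ioo (k : ℝ) (k + 1)) := by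
  have h1 : ∀ k : ℤ, volume (A ∩ Ioo (k : ℝ) (k + 1)) = (volume.restrict A) (Ioo (k : ℝ) (k + 1)) := by
    intro k
    rw [Measure.restrict_apply measurableSet_Ioo, inter_comm]
  rw [Finset.sum_congr rfl fun k _ => h1 k, ← measure_biUnion_finset]
  · refine le_antisymm ?_ ?_
    · have hsub : A ⊆ (A ∩ ⋃ k ∈ Finset.Ico (-(R : ℤ)) R, Ioo (k : ℝ) (k + 1)) ∪ ⋃ m : ℤ, {(m : ℝ)} := by
        intro x hx
        by_cases hfx : (⌊x⌋ : ℝ) = x
        · exact Or.inr (mem_iUnion.2 ⟨⌊x⌋, hfx.symm⟩)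
        · left
          refine ⟨hx, mem_iUnion₂.2 ⟨⌊x⌋, ?_, lt_of_le_of_ne (Int.floor_le x) hfx,
            Int.lt_floor_add_one x⟩⟩
          rw [Finset.mem_Ico]
          have h2 := hR hx
          refine ⟨Int.le_floor.2 (by push_cast; exact h2.1.le), Int.floor_lt.2 (by exact_mod_cast h2.2)⟩
      refine (measure_mono hsub).trans ((measure_union_le _ _).trans ?_)
      rw [measure_iUnion_null fun m => Real.volume_singleton, add_zero, Measure.restrict_apply, inter_comm]
      exact Finset.measurableSet_biUnion _ fun k _ => measurableSet_Ioo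
    · rw [Measure.restrict_apply (Finset.measurableSet_biUnion _ fun k _ => measurableSet_Ioo)]
      exact measure_mono inter_subset_right
  · intro i _ j _ hij
    rw [Function.onFun, Set.disjoint_left]
    rintro x ⟨h1, h2⟩ ⟨h3, h4⟩
    have a1 : (i : ℝ) < j + 1 := by linarith
    have a2 : (j : ℝ) < i + 1 := by linarith
    have a1' : i < j + 1 := by exact_mod_cast a1
    have a2' : j < i + 1 := by exact_mod_cast a2
    omega
  · exact fun k _ => measurableSet_Ioo

end Weyl

open Weyl in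
theorem perCount_avg (α : ℝ) (hα : Irrational α) (A : Set ℝ) (hb : Bornology.IsBounded A)
    (hfr : volume (frontier A) = 0) (ε : ℝ) (hε : 0 < ε) :
    ∃ N₀ : ℕ, ∀ N : ℕ, N₀ ≤ N → ∀ x : ℝ,
      |∑ l ∈ Finset.range N, (perCount A (x + l * α) : ℝ) - N * (volume A).toReal| ≤ ε * N := by
  obtain ⟨r, hr⟩ := hb.subset_ball 0
  obtain ⟨R, hR⟩ := exists_nat_ge r
  have hAR : A ⊆ Ioo (-(R : ℝ)) R := by
    intro x hx
    have := hr hx
    rw [mem_ball_zero_iff, Real.norm_eq_abs, abs_lt] at this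
    exact ⟨by linarith, by linarith⟩
  set W := Finset.Ico (-(R : ℤ)) R with hW
  have h1 : ∀ k : ℤ, ∃ N₀ : ℕ, ∀ N : ℕ, N₀ ≤ N → ∀ x : ℝ,
      |∑ l ∈ Finset.range N, (Gk A k).indicator (fun _ => (1 : ℝ)) (x + l * α) -
        N * (volume (Gk A k ∩ Ioc 0 1)).toReal| ≤ ε / (W.card + 1) * N := fun k =>
    per_two α hα (Gk A k) (Gk_per A k) (Gk_frontier A k hfr) _ (by positivity)
  choose N₀ hN₀ using h1
  refine ⟨W.sup N₀, fun N hN x => ?_⟩
  have h2 : ∀ k ∈ W, |∑ l ∈ Finset.range N, (Gk A k).indicator (fun _ => (1 : ℝ)) (x + l * α) -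
        N * (volume (Gk A k ∩ Ioc 0 1)).toReal| ≤ ε / (W.card + 1) * N := fun k hk =>
    hN₀ k N ((Finset.le_sup hk).trans hN) x
  have h3 : ∑ l ∈ Finset.range N, (perCount A (x + l * α) : ℝ) - N * (volume A).toReal =
      ∑ k ∈ W, (∑ l ∈ Finset.range N, (Gk A k).indicator (fun _ => (1 : ℝ)) (x + l * α) -
        N * (volume (Gk A k ∩ Ioc 0 1)).toReal) := by
    rw [Finset.sum_sub_distrib, Finset.sum_comm]
    congr 1
    · exact Finset.sum_congr rfl fun l _ => perCount_eq A R hAR _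
    · rw [← Finset.mul_sum, volume_sum A R hAR, ENNReal.toReal_sum]
      · congr 1
        exact Finset.sum_congr rfl fun k _ => by rw [Gk_volume]
      · intro k _
        exact ((measure_mono inter_subset_right).trans_lt (by simp)).ne
  rw [h3]
  refine (Finset.abs_sum_le_sum_abs _ _).trans ((Finset.sum_le_card_nsmul _ _ _ h2).trans ?_)
  rw [nsmul_eq_mul]
  have hN0 : (0 : ℝ) ≤ N := by positivity
  have : (W.card : ℝ) * (ε / (W.card + 1)) ≤ ε := by
    rw [mul_div_assoc', div_le_iff₀ (by positivity)]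
    nlinarith
  calc (W.card : ℝ) * (ε / (W.card + 1) * N) = (W.card : ℝ) * (ε / (W.card + 1)) * N := by ring
    _ ≤ ε * N := mul_le_mul_of_nonneg_right this hN0

end GB
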